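import Pool.Agent.H65.AS.Sub

/-!
# The normalised determinant is continuous; the Euclidean case

`FF_limit`: the normalised determinant of end points which depend continuously on a parameter.
`geo_scale`: configurations in the ball of radius `1 / s`.
`euclid`: the limit `s → 0`, the directions of Euclidean space.
-/

set_option autoImplicit false

open Filter Topology Finset Polynomial

namespace Pool.Agent.H88.Euc

open Pool.Agent.Results.MP_1fedf0_gt.CollinearPlusOne (spin br spin_inj)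
open Pool.Agent.H65.AS (cf cdet pol FF prod_pairs)

/-! ### Multiples of the spinors -/

theorem pol_smul {ι : Type*} (v w : ι → ℂ × ℂ) (c : ι → ℂ) (s : Finset ι)
    (h : ∀ j ∈ s, w j = (c j * (v j).1, c j * (v j).2)) : pol w s = C (∏ j ∈ s, c j) * pol v s := by
  unfold pol
  rw [map_prod, ← Finset.prod_mul_distrib]
  refine Finset.prod_congr rfl fun j hj => ?_
  rw [h j hj]
  simp only [C_mul]
  ring

theorem cdet_smul {n : ℕ} (v w : Fin n → Fin n → ℂ × ℂ) (c : Fin n → Fin n → ℂ)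
    (h : ∀ i j, i ≠ j → w i j = (c i j * (v i j).1, c i j * (v i j).2)) :
    cdet w = (∏ i, ∏ j ∈ Finset.univ.erase i, c i j) * cdet v := by
  unfold cdet
  have h1 : (cf fun a => pol (w a) (Finset.univ.erase a)) =
      Matrix.of fun i k => (∏ j ∈ Finset.univ.erase i, c i j) *
        (cf fun a => pol (v a) (Finset.univ.erase a)) i k := by
    ext i k
    change (pol (w i) (Finset.univ.erase i)).coeff (k : ℕ) =
      (∏ j ∈ Finset.univ.erase i, c i j) * (pol (v i) (Finset.univ.erase i)).coeff (k : ℕ)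
    rw [pol_smul (v i) (w i) (c i) _
      (fun j hj => h i j (Finset.ne_of_mem_erase hj).symm), coeff_C_mul]
  rw [h1, Matrix.det_mul_column]

/-- the normalised determinant does not depend on the choice of the spinors -/
theorem FF_smul {n : ℕ} (v w : Fin n → Fin n → ℂ × ℂ) (c : Fin n → Fin n → ℂ)
    (hc : ∀ i j, i ≠ j → c i j ≠ 0)
    (h : ∀ i j, i ≠ j → w i j = (c i j * (v i j).1, c i j * (v i j).2)) : FF w = FF v := by
  unfold FF
  rw [cdet_smul v w c h, norm_mul]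
  have h1 : ∏ i, ∏ j ∈ Finset.Ioi i, ‖br (w i j) (w j i)‖ =
      ‖∏ i, ∏ j ∈ Finset.univ.erase i, c i j‖ *
        ∏ i, ∏ j ∈ Finset.Ioi i, ‖br (v i j) (v j i)‖ := by
    rw [prod_pairs c]
    simp only [norm_prod, ← Finset.prod_mul_distrib]
    refine Finset.prod_congr rfl fun i _ => Finset.prod_congr rfl fun j hj => ?_
    have hij := (Finset.mem_Ioi.1 hj).ne
    rw [h i j hij, h j i hij.symm, ← norm_mul]
    congr 1
    unfold br
    ring
  have h2 : ‖∏ i, ∏ j ∈ Finset.univ.erase i, c i j‖ ≠ 0 := by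
    rw [Ne, norm_eq_zero, Finset.prod_eq_zero_iff]
    rintro ⟨i, -, hi⟩
    rw [Finset.prod_eq_zero_iff] at hi
    obtain ⟨j, hj, h3⟩ := hi
    exact hc i j (Finset.ne_of_mem_erase hj).symm h3
  rw [h1, mul_div_mul_left _ _ h2]

/-! ### Spinors which depend continuously on the point -/

/-- a spinor of the point `p` of the sphere, continuous near `q` -/
noncomputable def lif (q p : Fin 3 → ℝ) : ℂ × ℂ :=
  if q 2 = 1 then (1 + (p 2 : ℂ), (p 0 : ℂ) - (p 1 : ℂ) * Complex.I)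
  else ((p 0 : ℂ) + (p 1 : ℂ) * Complex.I, 1 - (p 2 : ℂ))

theorem lif_eq {q p : Fin 3 → ℝ} (hp : ∑ k, p k ^ 2 = 1) (h1 : q 2 = 1 → -1 < p 2)
    (h2 : q 2 ≠ 1 → p 2 ≠ 1) : ∃ c : ℂ, c ≠ 0 ∧ lif q p = (c * (spin p).1, c * (spin p).2) := by
  simp only [Fin.sum_univ_three] at hp
  have hsq : ((p 0 : ℂ) + (p 1 : ℂ) * Complex.I) * ((p 0 : ℂ) - (p 1 : ℂ) * Complex.I) =
        (1 + (p 2 : ℂ)) * (1 - (p 2 : ℂ)) := by
    have h5 : ((p 0 : ℂ)) ^ 2 + (p 1 : ℂ) ^ 2 + (p 2 : ℂ) ^ 2 = 1 := by exact_mod_cast hp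
    linear_combination h5 - (p 1 : ℂ) ^ 2 * Complex.I_sq
  by_cases hq : q 2 = 1
  · have h3 := h1 hq
    by_cases h : p 2 = 1
    · rw [h] at hp
      have e0 : p 0 = 0 := by nlinarith [sq_nonneg (p 0), sq_nonneg (p 1)]
      have e1 : p 1 = 0 := by nlinarith [sq_nonneg (p 0), sq_nonneg (p 1)]
      refine ⟨-2, by norm_num, ?_⟩
      unfold lif spin
      rw [if_pos hq, if_pos h, h, e0, e1]
      norm_num
    · have h4 : (1 - (p 2 : ℂ)) ≠ 0 := by
        have : (1 - p 2 : ℝ) ≠ 0 := fun h' => h (by linarith)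
        exact_mod_cast this
      have h5 : (1 + (p 2 : ℂ)) ≠ 0 := by
        have : (1 + p 2 : ℝ) ≠ 0 := by linarith
        exact_mod_cast this
      refine ⟨(p 0 : ℂ) - (p 1 : ℂ) * Complex.I, ?_, ?_⟩
      · intro h6
        rw [h6, mul_zero] at hsq
        exact mul_ne_zero h5 h4 hsq.symm
      · unfold lif spin
        rw [if_pos hq, if_neg h]
        refine Prod.ext ?_ ?_
        · simp only
          rw [eq_comm, mul_div_assoc', div_eq_iff h4, ← hsq]
          ring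
        · simp
  · have h3 := h2 hq
    have h4 : (1 - (p 2 : ℂ)) ≠ 0 := by
      have : (1 - p 2 : ℝ) ≠ 0 := fun h' => h3 (by linarith)
      exact_mod_cast this
    refine ⟨1 - (p 2 : ℂ), h4, ?_⟩
    unfold lif spin
    rw [if_neg hq, if_neg h3]
    refine Prod.ext ?_ ?_
    · simp only
      rw [mul_div_cancel₀ _ h4]
    · simp

theorem continuous_lif (q : Fin 3 → ℝ) : Continuous (lif q) := by
  unfold lif
  by_cases hq : q 2 = 1
  · simp only [if_pos hq]
    fun_prop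
  · simp only [if_neg hq]
    fun_prop

/-! ### Continuity -/

theorem continuous_coeff_pol {ι T : Type*} [TopologicalSpace T] [DecidableEq ι]
    {v : T → ι → ℂ × ℂ} (hv : ∀ j, Continuous fun t => v t j) (s : Finset ι) :
    ∀ k : ℕ, Continuous fun t => (pol (v t) s).coeff k := by
  induction s using Finset.induction_on with
  | empty =>
    intro k
    unfold pol
    simp only [Finset.prod_empty]
    exact continuous_const
  | insert a s ha ih =>
    intro k
    have h1 : ∀ t, pol (v t) (insert a s) =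
        C (v t a).2 * (X * pol (v t) s) - C (v t a).1 * pol (v t) s := by
      intro t
      unfold pol
      rw [Finset.prod_insert ha]
      ring
    simp only [h1, coeff_sub, coeff_C_mul]
    have h2 : Continuous fun t => (X * pol (v t) s).coeff k := by
      rcases k with _ | k
      · simp only [coeff_X_mul_zero]
        exact continuous_const
      · simp only [coeff_X_mul]
        exact ih k
    exact ((hv a).snd.mul h2).sub ((hv a).fst.mul (ih k))

theorem continuous_cdet {T : Type*} [TopologicalSpace T] {n : ℕ} {v : T → Fin n → Fin n → ℂ × ℂ}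
    (hv : ∀ i j, Continuous fun t => v t i j) : Continuous fun t => cdet (v t) := by
  unfold cdet cf
  refine Continuous.matrix_det (continuous_matrix fun i k => ?_)
  change Continuous fun t => (pol (v t i) (Finset.univ.erase i)).coeff (k : ℕ)
  exact continuous_coeff_pol (fun j => hv i j) _ _

theorem continuousAt_FF {n : ℕ} {v : ℝ → Fin n → Fin n → ℂ × ℂ}
    (hv : ∀ i j, Continuous fun t => v t i j) {t₀ : ℝ} (h0 : ∀ i j, i ≠ j → br (v t₀ i j) (v t₀ j i) ≠ 0) :
    ContinuousAt (fun t => FF (v t)) t₀ := by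
  unfold FF
  refine ContinuousAt.div (continuous_cdet hv).norm.continuousAt ?_ ?_
  · refine Continuous.continuousAt (continuous_finsetProd _ fun i _ => continuous_finsetProd _ fun j _ => ?_)
    refine Continuous.norm ?_
    unfold br
    exact ((hv i j).fst.mul (hv j i).snd).sub ((hv i j).snd.mul (hv j i).fst)
  · refine (Finset.prod_pos fun i _ => Finset.prod_pos fun j hj => ?_).ne'
    exact norm_pos_iff.2 (h0 i j (Finset.mem_Ioi.1 hj).ne)

/-- the normalised determinant depends continuously on the end points -/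
theorem FF_limit {n : ℕ} (P : ℝ → Fin n → Fin n → Fin 3 → ℝ) (hP : ∀ i j, Continuous fun t => P t i j)
    (h0 : ∀ i j, i ≠ j → ∑ k, (P 0 i j k) ^ 2 = 1) (hbr : ∀ i j, i ≠ j → P 0 i j ≠ P 0 j i)
    (hu : ∀ᶠ t in 𝓝[>] (0 : ℝ), ∀ i j, i ≠ j → ∑ k, (P t i j k) ^ 2 = 1) :
    Tendsto (fun t => FF fun i j => spin (P t i j)) (𝓝[>] 0) (𝓝 (FF fun i j => spin (P 0 i j))) := by
  have hc : ∀ i j, Continuous fun t => lif (P 0 i j) (P t i j) := fun i j =>
    (continuous_lif _).comp (hP i j)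
  have hk : ∀ i j, Continuous fun t => P t i j 2 := fun i j => (continuous_apply 2).comp (hP i j)
  have hev : ∀ i j, ∀ᶠ t in 𝓝 (0 : ℝ), (P 0 i j 2 = 1 → -1 < P t i j 2) ∧
      (P 0 i j 2 ≠ 1 → P t i j 2 ≠ 1) := by
    intro i j
    by_cases h : P 0 i j 2 = 1
    · have h1 : ∀ᶠ t in 𝓝 (0 : ℝ), -1 < P t i j 2 :=
        (hk i j).tendsto 0 |>.eventually (lt_mem_nhds (by rw [h]; norm_num))
      filter_upwards [h1] with t ht
      exact ⟨fun _ => ht, fun h' => absurd h h'⟩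
    · filter_upwards [(hk i j).continuousAt.eventually_ne h] with t ht
      exact ⟨fun h' => absurd h' h, fun _ => ht⟩
  have key : ∀ t, (∀ i j, i ≠ j → ∑ k, (P t i j k) ^ 2 = 1) →
      (∀ i j, (P 0 i j 2 = 1 → -1 < P t i j 2) ∧ (P 0 i j 2 ≠ 1 → P t i j 2 ≠ 1)) →
      FF (fun i j => lif (P 0 i j) (P t i j)) = FF fun i j => spin (P t i j) := by
    intro t h1 h2
    have h3 : ∀ i j, ∃ c : ℂ, i ≠ j → c ≠ 0 ∧ lif (P 0 i j) (P t i j) =
        (c * (spin (P t i j)).1, c * (spin (P t i j)).2) := by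
      intro i j
      by_cases hij : i = j
      · exact ⟨1, fun h => absurd hij h⟩
      · obtain ⟨c, hc1, hc2⟩ := lif_eq (h1 i j hij) (h2 i j).1 (h2 i j).2
        exact ⟨c, fun _ => ⟨hc1, hc2⟩⟩
    choose c hcc using h3
    exact FF_smul _ _ c (fun i j hij => (hcc i j hij).1) fun i j hij => (hcc i j hij).2
  have h2 : ∀ i j, (P 0 i j 2 = 1 → -1 < P 0 i j 2) ∧ (P 0 i j 2 ≠ 1 → P 0 i j 2 ≠ 1) :=
    fun i j => ⟨fun h => by rw [h]; norm_num, fun h => h⟩
  have h3 := key 0 h0 h2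
  have h4 : ∀ i j, i ≠ j → br (lif (P 0 i j) (P 0 i j)) (lif (P 0 j i) (P 0 j i)) ≠ 0 := by
    intro i j hij
    obtain ⟨c, hc1, hc2⟩ := lif_eq (h0 i j hij) (h2 i j).1 (h2 i j).2
    obtain ⟨d, hd1, hd2⟩ := lif_eq (h0 j i hij.symm) (h2 j i).1 (h2 j i).2
    have h5 : br (lif (P 0 i j) (P 0 i j)) (lif (P 0 j i) (P 0 j i)) =
        c * d * br (spin (P 0 i j)) (spin (P 0 j i)) := by
      rw [hc2, hd2]
      unfold br
      ring
    rw [h5]
    exact mul_ne_zero (mul_ne_zero hc1 hd1) fun h => hbr i j hij (spin_inj (h0 i j hij) (h0 j i hij.symm) h)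
  have h5 := (continuousAt_FF (v := fun t i j => lif (P 0 i j) (P t i j)) hc (t₀ := 0) h4).tendsto.mono_left
    (nhdsWithin_le_nhds (s := Set.Ioi (0 : ℝ)))
  simp only [h3] at h5
  refine h5.congr' ?_
  have h6 : ∀ᶠ t in 𝓝 (0 : ℝ), ∀ i j, (P 0 i j 2 = 1 → -1 < P t i j 2) ∧
      (P 0 i j 2 ≠ 1 → P t i j 2 ≠ 1) :=
    eventually_all.2 fun i => eventually_all.2 fun j => hev i j
  filter_upwards [hu, h6.filter_mono nhdsWithin_le_nhds] with t h7 h8
  exact key t h7 h8

/-! ### The end points -/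

/-- the point of the unit sphere on the ray from `s x` in the direction `d` -/
noncomputable def pt (x d : Fin 3 → ℝ) (s : ℝ) : Fin 3 → ℝ :=
  s • x + ((-(s * ∑ k, x k * d k) + √((s * ∑ k, x k * d k) ^ 2 + (∑ k, d k ^ 2) * (1 - s ^ 2 * ∑ k, x k ^ 2))) /
    ∑ k, d k ^ 2) • d

theorem continuous_pt (x d : Fin 3 → ℝ) : Continuous (pt x d) := by
  unfold pt
  fun_prop

theorem pt_spec {x d : Fin 3 → ℝ} (hd : 0 < ∑ k, d k ^ 2) {s : ℝ} (hs : s ^ 2 * ∑ k, x k ^ 2 < 1) :
    ∑ k, (pt x d s k) ^ 2 = 1 ∧ ∃ t : ℝ, 0 < t ∧ pt x d s = s • x + t • d := by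
  obtain ⟨A, hA⟩ : ∃ A, A = ∑ k, d k ^ 2 := ⟨_, rfl⟩
  obtain ⟨B, hB⟩ : ∃ B, B = ∑ k, x k * d k := ⟨_, rfl⟩
  obtain ⟨D, hD⟩ : ∃ D, D = ∑ k, x k ^ 2 := ⟨_, rfl⟩
  obtain ⟨r, hr⟩ : ∃ r, r = √((s * B) ^ 2 + A * (1 - s ^ 2 * D)) := ⟨_, rfl⟩
  have hpt : pt x d s = s • x + ((-(s * B) + r) / A) • d := by
    rw [hr, hA, hB, hD]
    rfl
  rw [← hA] at hd
  rw [← hD] at hs
  have h1 : 0 < A * (1 - s ^ 2 * D) := mul_pos hd (by linarith)
  have hr2 : r ^ 2 = (s * B) ^ 2 + A * (1 - s ^ 2 * D) := by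
    rw [hr, Real.sq_sqrt (by positivity)]
  have hr0 : s * B < r := by
    rw [hr]
    exact Real.lt_sqrt_of_sq_lt (by linarith)
  refine ⟨?_, (-(s * B) + r) / A, div_pos (by linarith) hd, hpt⟩
  have h2 : ∑ k, (pt x d s k) ^ 2 = s ^ 2 * D + 2 * s * ((-(s * B) + r) / A) * B +
      ((-(s * B) + r) / A) ^ 2 * A := by
    rw [hpt, hA, hB, hD]
    simp only [Fin.sum_univ_three, Pi.add_apply, Pi.smul_apply, smul_eq_mul]
    ring
  rw [h2]
  field_simp
  linear_combination hr2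

theorem pt_zero {x d p : Fin 3 → ℝ} (hp : ∑ k, p k ^ 2 = 1) {t : ℝ} (ht : 0 < t) (h : p = t • d) :
    pt x d 0 = p := by
  obtain ⟨A, hA⟩ : ∃ A, A = ∑ k, d k ^ 2 := ⟨_, rfl⟩
  have h1 : t ^ 2 * A = 1 := by
    rw [← hp, h, hA]
    simp only [Fin.sum_univ_three, Pi.smul_apply, smul_eq_mul]
    ring
  have hA0 : 0 < A := by
    by_contra hcon
    push Not at hcon
    nlinarith [sq_nonneg t]
  have h2 : √A = 1 / t := by
    have h5 : A = (1 / t) ^ 2 := by
      field_simp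
      linarith
    rw [h5, Real.sqrt_sq (by positivity)]
  have h3 : pt x d 0 = (√A / A) • d := by
    unfold pt
    rw [← hA]
    simp
  have h4 : √A / A = t := by
    rw [h2, div_div, div_eq_iff (by positivity)]
    linear_combination -h1
  rw [h3, h, h4]

end Pool.Agent.H88.Euc
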