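import Pool.Agent.H88.Euc.Lim

/-!
# Weakly convex position: all curvatures `-s²`, `s ≥ 0`
-/

set_option autoImplicit false

open Filter Topology Finset Polynomial

namespace Pool.Agent.H88.Euc

open Pool.Agent.Results.MP_1fedf0_gt.CollinearPlusOne (spin br spin_inj)
open Pool.Agent.H65.AS (cf cdet pol FF Geo exists_geo FF_one_le FF_sub)

theorem range_smul {n : ℕ} (x : Fin n → Fin 3 → ℝ) {s : ℝ} (hs : s ≠ 0) :
    Set.range (fun i => s • x i) =
      (ContinuousLinearEquiv.smulLeft (R₁ := ℝ) (M₁ := Fin 3 → ℝ) (Units.mk0 s hs)).toContinuousAffineEquiv ''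
        Set.range x := by
  ext y
  constructor
  · rintro ⟨i, rfl⟩
    exact ⟨x i, ⟨i, rfl⟩, rfl⟩
  · rintro ⟨_, ⟨i, rfl⟩, rfl⟩
    exact ⟨i, rfl⟩

theorem coplanar_smul {n : ℕ} {x : Fin n → Fin 3 → ℝ} (h : Coplanar ℝ (Set.range x)) {s : ℝ} (hs : s ≠ 0) :
    Coplanar ℝ (Set.range fun i => s • x i) := by
  rw [range_smul x hs]
  unfold Coplanar at h ⊢
  have h1 := AffineMap.map_vectorSpan
    (f := ((ContinuousLinearEquiv.smulLeft (R₁ := ℝ) (M₁ := Fin 3 → ℝ) (Units.mk0 s hs)).toContinuousAffineEquiv.toAffineEquiv : (Fin 3 → ℝ) →ᵃ[ℝ] (Fin 3 → ℝ)))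
    (s := Set.range x)
  have h2 := rank_map_le ((ContinuousLinearEquiv.smulLeft (R₁ := ℝ) (M₁ := Fin 3 → ℝ) (Units.mk0 s hs)).toContinuousAffineEquiv.toAffineEquiv : (Fin 3 → ℝ) →ᵃ[ℝ] (Fin 3 → ℝ)).linear
    (vectorSpan ℝ (Set.range x))
  rw [h1] at h2
  exact h2.trans h

theorem weak_smul {n : ℕ} {x : Fin n → Fin 3 → ℝ}
    (hw : ∀ i, x i ∉ intrinsicInterior ℝ (convexHull ℝ (Set.range x))) {s : ℝ} (hs : s ≠ 0) (i : Fin n) :
    s • x i ∉ intrinsicInterior ℝ (convexHull ℝ (Set.range fun i => s • x i)) := by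
  obtain ⟨φ, hφ⟩ : ∃ φ : (Fin 3 → ℝ) ≃L[ℝ] (Fin 3 → ℝ),
    φ = ContinuousLinearEquiv.smulLeft (R₁ := ℝ) (M₁ := Fin 3 → ℝ) (Units.mk0 s hs) := ⟨_, rfl⟩
  have h1 : convexHull ℝ (Set.range fun i => s • x i) = φ.toContinuousAffineEquiv '' convexHull ℝ (Set.range x) := by
    rw [range_smul x hs, ← hφ]
    exact (AffineMap.image_convexHull ((φ.toContinuousAffineEquiv.toAffineEquiv : (Fin 3 → ℝ) →ᵃ[ℝ] (Fin 3 → ℝ))) (Set.range x)).symm
  rw [h1, ContinuousAffineEquiv.intrinsicInterior_image]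
  rintro ⟨y, hy, hyx⟩
  have h2 : φ y = φ (x i) := by
    rw [hφ]
    rw [hφ] at hyx
    exact hyx
  rw [φ.injective h2] at hy
  exact hw i hy

/-- curvature `-s²`, `s > 0` -/
theorem hyperbolic {n : ℕ} (hn : 2 ≤ n) {x : Fin n → Fin 3 → ℝ} {p : Fin n → Fin n → Fin 3 → ℝ} {s : ℝ} (hs : 0 < s)
    (hx : ∀ i, s ^ 2 * ∑ k : Fin 3, (x i k) ^ 2 < 1) (hinj : Function.Injective x)
    (hp : ∀ i j, i ≠ j → (∑ k : Fin 3, (p i j k) ^ 2 = 1) ∧
      ∃ t : ℝ, 0 < t ∧ p i j = s • x i + t • (x j - x i))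
    (hcop : Coplanar ℝ (Set.range x))
    (hw : ∀ i, x i ∉ intrinsicInterior ℝ (convexHull ℝ (Set.range x))) :
    (∀ i j, i ≠ j → br (spin (p i j)) (spin (p j i)) ≠ 0) ∧ 1 ≤ FF (fun i j => spin (p i j)) ∧
      ∀ m : ℕ, 2 ≤ m → ∀ f : Fin m → Fin n, Function.Injective f →
        FF (fun i j => spin (p (f i) (f j))) ≤ FF (fun i j => spin (p i j)) := by
  obtain ⟨⟨σ, u, e1, e2, hg⟩, hbr⟩ := exists_geo hn (x := fun i => s • x i) (p := p)
    (fun i => by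
      have h1 : ∑ k : Fin 3, ((s • x i) k) ^ 2 = s ^ 2 * ∑ k : Fin 3, (x i k) ^ 2 := by
        simp only [Fin.sum_univ_three, Pi.smul_apply, smul_eq_mul]
        ring
      rw [h1]
      exact hx i)
    (fun i j hij => by
      obtain ⟨h1, t, ht, h2⟩ := hp i j hij
      refine ⟨h1, t / s, div_pos ht hs, ?_⟩
      rw [h2, ← smul_sub, smul_smul, div_mul_cancel₀ _ hs.ne'])
    (coplanar_smul hcop hs.ne') (fun i j hij => hinj (smul_right_injective _ hs.ne' hij))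
    (fun i => weak_smul hw hs.ne' i)
  exact ⟨hbr, FF_one_le hn hg hbr, fun m hm f hf => FF_sub n hn p σ u e1 e2 hg hbr m hm f hf⟩

/-- curvature `0` -/
theorem euclid {n : ℕ} (hn : 2 ≤ n) {x : Fin n → Fin 3 → ℝ} {p : Fin n → Fin n → Fin 3 → ℝ}
    (hinj : Function.Injective x)
    (hp : ∀ i j, i ≠ j → (∑ k : Fin 3, (p i j k) ^ 2 = 1) ∧ ∃ t : ℝ, 0 < t ∧ p i j = t • (x j - x i))
    (hcop : Coplanar ℝ (Set.range x))
    (hw : ∀ i, x i ∉ intrinsicInterior ℝ (convexHull ℝ (Set.range x))) :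
    (∀ i j, i ≠ j → br (spin (p i j)) (spin (p j i)) ≠ 0) ∧ 1 ≤ FF (fun i j => spin (p i j)) ∧
      ∀ m : ℕ, 2 ≤ m → ∀ f : Fin m → Fin n, Function.Injective f →
        FF (fun i j => spin (p (f i) (f j))) ≤ FF (fun i j => spin (p i j)) := by
  have hd : ∀ i j, i ≠ j → 0 < ∑ k, ((x j - x i) k) ^ 2 := by
    intro i j hij
    refine lt_of_le_of_ne (Finset.sum_nonneg fun k _ => sq_nonneg _) fun h => hij ?_
    have h1 := (Finset.sum_eq_zero_iff_of_nonneg (fun k _ => sq_nonneg ((x j - x i) k))).1 h.symm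
    apply hinj
    funext k
    have h2 := h1 k (Finset.mem_univ k)
    have h3 : (x j - x i) k = 0 := by
      rw [sq_eq_zero_iff] at h2
      exact h2
    have h4 : x j k - x i k = 0 := h3
    linarith
  obtain ⟨P, hP⟩ : ∃ P : ℝ → Fin n → Fin n → Fin 3 → ℝ, P = fun s i j => pt (x i) (x j - x i) s := ⟨_, rfl⟩
  have hP0 : ∀ i j, i ≠ j → P 0 i j = p i j := by
    intro i j hij
    obtain ⟨h1, t, ht, h2⟩ := hp i j hij
    rw [hP]
    exact pt_zero h1 ht h2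
  have hPc : ∀ i j, Continuous fun s => P s i j := by
    intro i j
    rw [hP]
    exact continuous_pt _ _
  have hne : ∀ i j, i ≠ j → p i j ≠ p j i := by
    intro i j hij h
    obtain ⟨-, t, ht, h1⟩ := hp i j hij
    obtain ⟨-, t', ht', h2⟩ := hp j i hij.symm
    rw [h1, h2] at h
    have h3 : (t + t') • (x j - x i) = 0 := by
      have h4 : t' • (x i - x j) = -(t' • (x j - x i)) := by rw [← smul_neg, neg_sub]
      rw [h4] at h
      rw [add_smul, h, neg_add_cancel]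
    rcases smul_eq_zero.1 h3 with h4 | h4
    · linarith
    · exact hij (hinj (sub_eq_zero.1 h4)).symm
  have hx : ∀ᶠ s in 𝓝[>] (0 : ℝ), 0 < s ∧ ∀ i, s ^ 2 * ∑ k, (x i k) ^ 2 < 1 := by
    refine (eventually_mem_nhdsWithin).and ?_
    rw [eventually_all]
    intro i
    have h1 : Continuous fun s : ℝ => s ^ 2 * ∑ k, (x i k) ^ 2 := by fun_prop
    have h2 : ∀ᶠ s in 𝓝 (0 : ℝ), s ^ 2 * ∑ k, (x i k) ^ 2 < 1 :=
      (h1.tendsto 0).eventually (gt_mem_nhds (by simp))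
    exact h2.filter_mono nhdsWithin_le_nhds
  have hev : ∀ᶠ s in 𝓝[>] (0 : ℝ), (∀ i j, i ≠ j → ∑ k, (P s i j k) ^ 2 = 1) ∧
      1 ≤ FF (fun i j => spin (P s i j)) ∧ ∀ m : ℕ, 2 ≤ m → ∀ f : Fin m → Fin n, Function.Injective f →
        FF (fun i j => spin (P s (f i) (f j))) ≤ FF (fun i j => spin (P s i j)) := by
    filter_upwards [hx] with s hs
    have h1 : ∀ i j, i ≠ j → (∑ k : Fin 3, (P s i j k) ^ 2 = 1) ∧
        ∃ t : ℝ, 0 < t ∧ P s i j = s • x i + t • (x j - x i) := by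
      intro i j hij
      rw [hP]
      exact pt_spec (hd i j hij) (hs.2 i)
    obtain ⟨-, h2, h3⟩ := hyperbolic hn hs.1 hs.2 hinj h1 hcop hw
    exact ⟨fun i j hij => (h1 i j hij).1, h2, h3⟩
  have hlim : ∀ (m : ℕ) (f : Fin m → Fin n), Function.Injective f →
      Tendsto (fun s => FF fun i j => spin (P s (f i) (f j))) (𝓝[>] 0) (𝓝 (FF fun i j => spin (p (f i) (f j)))) := by
    intro m f hf
    have h1 := FF_limit (fun s i j => P s (f i) (f j)) (fun i j => hPc _ _)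
      (fun i j hij => by
        have h2 : f i ≠ f j := fun h => hij (hf h)
        rw [hP0 _ _ h2]
        exact (hp _ _ h2).1)
      (fun i j hij => by
        have h2 : f i ≠ f j := fun h => hij (hf h)
        rw [hP0 _ _ h2, hP0 _ _ h2.symm]
        exact hne _ _ h2)
      (hev.mono fun s hs i j hij => hs.1 _ _ fun h => hij (hf h))
    have h3 : FF (fun i j => spin (P 0 (f i) (f j))) = FF fun i j => spin (p (f i) (f j)) := by
      refine FF_smul _ _ (fun _ _ => 1) (fun _ _ _ => one_ne_zero) fun i j hij => ?_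
      rw [hP0 _ _ (fun h => hij (hf h)), one_mul, one_mul]
    rw [h3] at h1
    exact h1
  have hfull := hlim n id Function.injective_id
  simp only [id] at hfull
  refine ⟨fun i j hij h => hne i j hij (spin_inj (hp i j hij).1 (hp j i hij.symm).1 h), ?_, fun m hm f hf => ?_⟩
  · exact ge_of_tendsto hfull (hev.mono fun s hs => hs.2.1)
  · exact le_of_tendsto_of_tendsto (hlim m f hf) hfull (hev.mono fun s hs => hs.2.2 m hm f hf)

/-- **All curvatures `-s²`, `s ≥ 0`.** -/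
theorem all_curvatures {n : ℕ} (hn : 2 ≤ n) {x : Fin n → Fin 3 → ℝ} {p : Fin n → Fin n → Fin 3 → ℝ} {s : ℝ} (hs : 0 ≤ s)
    (hx : ∀ i, s ^ 2 * ∑ k : Fin 3, (x i k) ^ 2 < 1) (hinj : Function.Injective x)
    (hp : ∀ i j, i ≠ j → (∑ k : Fin 3, (p i j k) ^ 2 = 1) ∧
      ∃ t : ℝ, 0 < t ∧ p i j = s • x i + t • (x j - x i))
    (hcop : Coplanar ℝ (Set.range x))
    (hw : ∀ i, x i ∉ intrinsicInterior ℝ (convexHull ℝ (Set.range x))) :
    (∀ i j, i ≠ j → br (spin (p i j)) (spin (p j i)) ≠ 0) ∧ 1 ≤ FF (fun i j => spin (p i j)) ∧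
      ∀ m : ℕ, 2 ≤ m → ∀ f : Fin m → Fin n, Function.Injective f →
        FF (fun i j => spin (p (f i) (f j))) ≤ FF (fun i j => spin (p i j)) := by
  rcases hs.eq_or_lt with h | h
  · subst h
    refine euclid hn hinj (fun i j hij => ?_) hcop hw
    obtain ⟨h1, t, ht, h2⟩ := hp i j hij
    exact ⟨h1, t, ht, by rw [h2, zero_smul, zero_add]⟩
  · exact hyperbolic hn h hx hinj hp hcop hw

end Pool.Agent.H88.Euc
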